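import Pool.Agent.H4.TA.Targets

/-!
# Row LOW of tas_modules: the lower bound for the region
-/

set_option autoImplicit false

open Finset Filter Topology Pool.Agent.H43.TC Pool.Agent.H4.TA

namespace Pool.Agent.H46.TA

theorem rng_ge_one (k m : ℕ) : 1 ≤ rng k m := by
  unfold rng
  have h : ((avoid k 0 : ℕ) : ℝ) / (2 * k : ℝ) ^ 0 = 1 := by simp [avoid]
  rw [← h]
  exact Finset.single_le_sum (f := fun s => (avoid k s : ℝ) / (2 * k : ℝ) ^ s)
    (fun i _ => by positivity) (Finset.mem_range.mpr (Nat.succ_pos m))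

theorem size_pos {k n : ℕ} [NeZero n] (c : Tor k n → Bool) (hc : Pool.Agent.H43.TC.Balanced c) (b : Bool) :
    0 < size c b := by
  have h1 : 0 < size c (c 0) :=
    Finset.card_pos.mpr ⟨0, Finset.mem_filter.mpr ⟨Finset.mem_univ _, rfl⟩⟩
  unfold Pool.Agent.H43.TC.Balanced at hc
  cases hb : c 0 <;> rw [hb] at h1 <;> cases b <;> omega

theorem stay_nonneg {k n : ℕ} [NeZero n] (c : Tor k n → Bool) (b : Bool) (t : ℕ) :
    0 ≤ stay c b t := by
  unfold stay
  positivity

/-- the power inequality for the staying probabilities -/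
theorem stay_pow (hLGC : T_LGC) {k n : ℕ} [NeZero n] (hk : 0 < k) (c : Tor k n → Bool)
    (b : Bool) (h r : ℕ) (hr : 1 ≤ r) (hs : 0 < size c b) :
    stay c b (2 * h) ^ r ≤ stay c b (2 * h * r) := by
  have h1 := hLGC (Tor k n) k e c b h r hr
  have h2 : total c b (2 * h) ^ r ≤ total c b (2 * h * r) * size c b ^ (r - 1) := h1
  have h3 : (total c b (2 * h) : ℝ) ^ r ≤ total c b (2 * h * r) * (size c b : ℝ) ^ (r - 1) := by
    exact_mod_cast h2
  have hs0 : (0 : ℝ) < size c b := by exact_mod_cast hs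
  have hk0 : (0 : ℝ) < 2 * k := by
    have : (0 : ℝ) < k := by exact_mod_cast hk
    positivity
  unfold stay
  rw [div_pow, mul_pow, ← pow_mul, div_le_div_iff₀ (by positivity) (by positivity)]
  have h4 : (size c b : ℝ) ^ r = size c b ^ (r - 1) * size c b := by
    rw [← pow_succ]
    congr 1
    omega
  rw [h4]
  calc (total c b (2 * h) : ℝ) ^ r * (size c b * (2 * k : ℝ) ^ (2 * h * r))
      ≤ (total c b (2 * h * r) * (size c b : ℝ) ^ (r - 1)) *
        (size c b * (2 * k : ℝ) ^ (2 * h * r)) := mul_le_mul_of_nonneg_right h3 (by positivity)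
    _ = total c b (2 * h * r) * ((size c b : ℝ) ^ (r - 1) * size c b *
        (2 * k : ℝ) ^ (2 * h * r)) := by ring

theorem low_one (hLGC : T_LGC) (hMNT : T_MNT) {k n : ℕ} [NeZero n] (hk : 0 < k)
    (c : Tor k n → Bool) (hc : Pool.Agent.H43.TC.Balanced c) (t h r : ℕ) (hh : 1 ≤ h) (h2 : 2 * h ≤ t)
    (ht : t ≤ 2 * h * r) :
    max 0 (1 - (rng k (2 * h) - 1) * (1 - stay c true t)) ^ r ≤ stay c false t := by
  have hr : 1 ≤ r := by
    rcases Nat.eq_zero_or_pos r with h0 | h0
    · subst h0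
      omega
    · exact h0
  obtain ⟨hm, hcor⟩ := hMNT k n c hk
  have e1 := hm false t (2 * h * r) ht
  have e2 := stay_pow hLGC hk c false h r hr (size_pos c hc false)
  have e3 := hcor (2 * h) (by omega) (size_pos c hc true) hc
  have e4 := hm true (2 * h) t h2
  have e5 := rng_ge_one k (2 * h)
  have e6 : (rng k (2 * h) - 1) * (1 - stay c true (2 * h)) ≤
      (rng k (2 * h) - 1) * (1 - stay c true t) :=
    mul_le_mul_of_nonneg_left (by linarith) (by linarith)
  have e7 : max 0 (1 - (rng k (2 * h) - 1) * (1 - stay c true t)) ≤ stay c false (2 * h) :=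
    max_le (stay_nonneg c false _) (by linarith)
  exact (pow_le_pow_left₀ (le_max_left _ _) e7 r).trans (e2.trans e1)

theorem pf_LOW (hLGC : T_LGC) (hMNT : T_MNT) : T_LOW := by
  rintro k t h r x y hk hh h2 ht ⟨n, c, -, hbal, hlim⟩
  have hx : Tendsto (fun j => stay (c j) true t) atTop (𝓝 x) :=
    (continuous_fst.tendsto (x, y)).comp hlim
  have hy : Tendsto (fun j => stay (c j) false t) atTop (𝓝 y) :=
    (continuous_snd.tendsto (x, y)).comp hlim
  have hcont : Continuous fun z : ℝ => max 0 (1 - (rng k (2 * h) - 1) * (1 - z)) ^ r := by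
    fun_prop
  exact le_of_tendsto_of_tendsto' ((hcont.tendsto x).comp hx) hy
    fun j => low_one hLGC hMNT hk (c j) (hbal j) t h r hh h2 ht

end Pool.Agent.H46.TA
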