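import Pool.Agent.H4.TA.Targets2

/-!
# Row PL3 of tas_modules: bound for the return probabilities, dimension at least three
-/

set_option autoImplicit false

open Finset Filter Topology Pool.Agent.H43.TC Pool.Agent.H4.TA

namespace Pool.Agent.H46.TA.PL3

theorem sum_words (k j : ℕ) (f : Wd k j → ℝ) :
    ∑ w, f w = ∑ d : Fin j → Fin k, ∑ ε : Fin j → Bool, f (fun l => (d l, ε l)) := by
  rw [← Fintype.sum_prod_type']
  exact (Equiv.sum_comp (Equiv.arrowProdEquivProdArrow (Fin j) (fun _ => Fin k)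
    (fun _ => Bool)).symm f).symm

theorem rp (x : ℝ) (hx : 0 < x) : x ^ (-(3 / 2) : ℝ) = 1 / (√x) ^ 3 := by
  rw [Real.sqrt_eq_rpow, ← Real.rpow_natCast, ← Real.rpow_mul hx.le, one_div,
    ← Real.rpow_neg hx.le]
  norm_num

/-- the inequality of the means -/
theorem amgm (x J : ℝ) (hx : 1 ≤ x) (hJ : 0 < J) :
    x ^ (-(3 / 2) : ℝ) ≤ 1 / 2 * (1 / √J * (1 / x) + √J * (2 * (1 / (x * (x + 1))))) := by
  have hx0 : 0 < x := by linarith
  rw [rp x hx0]
  set u : ℝ := √x with hu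
  set v : ℝ := √J with hv
  have hu0 : 0 < u := Real.sqrt_pos.mpr hx0
  have hv0 : 0 < v := Real.sqrt_pos.mpr hJ
  have hu2 : u ^ 2 = x := Real.sq_sqrt hx0.le
  have h1 : 1 / x ^ 2 ≤ 2 * (1 / (x * (x + 1))) := by
    rw [mul_one_div, div_le_div_iff₀ (by positivity) (by positivity)]
    nlinarith
  have h2 : 1 / u ^ 3 ≤ 1 / 2 * (1 / v * (1 / u ^ 2) + v * (1 / u ^ 4)) := by
    have e : 1 / 2 * (1 / v * (1 / u ^ 2) + v * (1 / u ^ 4)) - 1 / u ^ 3 =
        (u - v) ^ 2 / (2 * v * u ^ 4) := by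
      field_simp
      ring
    have e2 : 0 ≤ (u - v) ^ 2 / (2 * v * u ^ 4) := by positivity
    linarith
  have h3 : u ^ 4 = x ^ 2 := by
    rw [← hu2]
    ring
  rw [hu2, h3] at h2
  have h4 : v * (1 / x ^ 2) ≤ v * (2 * (1 / (x * (x + 1)))) :=
    mul_le_mul_of_nonneg_left h1 hv0.le
  linarith

/-- one direction -/
theorem one_dir (hBNM : T_BNM) (hBN2 : T_BN2) (k j : ℕ) (hk : 1 ≤ k) (a : Fin k) :
    ∑ d : Fin j → Fin k, ((dn d a : ℝ) + 1) ^ (-(3 / 2) : ℝ) ≤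
      (k : ℝ) ^ j * (2 * (k : ℝ) ^ 2 * ((j : ℝ) + 1) ^ (-(3 / 2) : ℝ)) := by
  have hk1 : (1 : ℝ) ≤ k := by exact_mod_cast hk
  have hJ : (0 : ℝ) < (j : ℝ) + 1 := by positivity
  set J : ℝ := (j : ℝ) + 1 with hJdef
  have hJ1 : 1 ≤ J := by
    rw [hJdef]
    have : (0 : ℝ) ≤ j := Nat.cast_nonneg _
    linarith
  have e1 := hBNM k j a
  have e2 := hBN2 k j a
  rw [rp J hJ]
  set v : ℝ := √J with hv
  have hv0 : 0 < v := Real.sqrt_pos.mpr hJ
  have hv2 : v ^ 2 = J := Real.sq_sqrt hJ.le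
  calc ∑ d : Fin j → Fin k, ((dn d a : ℝ) + 1) ^ (-(3 / 2) : ℝ)
      ≤ ∑ d : Fin j → Fin k, 1 / 2 * (1 / v * (1 / ((dn d a : ℝ) + 1)) +
          v * (2 * (1 / (((dn d a : ℝ) + 1) * ((dn d a : ℝ) + 1 + 1))))) := by
        refine sum_le_sum fun d _ => amgm _ J ?_ hJ
        have : (0 : ℝ) ≤ dn d a := Nat.cast_nonneg _
        linarith
    _ = 1 / 2 * (1 / v * (∑ d : Fin j → Fin k, 1 / ((dn d a : ℝ) + 1)) +
          v * (2 * ∑ d : Fin j → Fin k, 1 / (((dn d a : ℝ) + 1) * ((dn d a : ℝ) + 2)))) := by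
        rw [← mul_sum, sum_add_distrib, ← mul_sum, ← mul_sum, ← mul_sum]
        have : ∀ d : Fin j → Fin k, ((dn d a : ℝ) + 1 + 1) = (dn d a : ℝ) + 2 := fun d => by ring
        simp only [this]
    _ ≤ 1 / 2 * (1 / v * ((k : ℝ) ^ (j + 1) / J) +
          v * (2 * ((k : ℝ) ^ (j + 2) / (J * ((j : ℝ) + 2))))) := by
        refine mul_le_mul_of_nonneg_left (add_le_add ?_ ?_) (by norm_num)
        · exact mul_le_mul_of_nonneg_left e1 (by positivity)
        · refine mul_le_mul_of_nonneg_left (mul_le_mul_of_nonneg_left e2 (by norm_num)) hv0.le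
    _ ≤ 1 / 2 * (1 / v * ((k : ℝ) ^ (j + 1) / J) + v * (2 * ((k : ℝ) ^ (j + 2) / (J * J)))) := by
        refine mul_le_mul_of_nonneg_left (add_le_add (le_refl _) ?_) (by norm_num)
        refine mul_le_mul_of_nonneg_left (mul_le_mul_of_nonneg_left ?_ (by norm_num)) hv0.le
        refine div_le_div_of_nonneg_left (by positivity) (by positivity) ?_
        refine mul_le_mul_of_nonneg_left ?_ hJ.le
        rw [hJdef]
        linarith
    _ = (k : ℝ) ^ j * ((k : ℝ) / 2 + (k : ℝ) ^ 2) * (1 / v ^ 3) := by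
        rw [← hv2]
        field_simp
        ring
    _ ≤ (k : ℝ) ^ j * (2 * (k : ℝ) ^ 2) * (1 / v ^ 3) := by
        refine mul_le_mul_of_nonneg_right (mul_le_mul_of_nonneg_left ?_ (by positivity))
          (by positivity)
        nlinarith
    _ = (k : ℝ) ^ j * (2 * (k : ℝ) ^ 2 * (1 / v ^ 3)) := by ring

end Pool.Agent.H46.TA.PL3

namespace Pool.Agent.H46.TA

open Pool.Agent.H46.TA.PL3

theorem pf_PL3 (hTHR : T_THR) (hBNM : T_BNM) (hBN2 : T_BN2) : T_PL3 := by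
  intro k j hk
  have hk0 : (0 : ℝ) < k := by
    have : 0 < k := by omega
    exact_mod_cast this
  let a : Fin k := ⟨0, by omega⟩
  let b : Fin k := ⟨1, by omega⟩
  let c : Fin k := ⟨2, by omega⟩
  have hab : a ≠ b := by
    intro h
    have := congrArg Fin.val h
    simp [a, b] at this
  have hac : a ≠ c := by
    intro h
    have := congrArg Fin.val h
    simp [a, c] at this
  have hbc : b ≠ c := by
    intro h
    have := congrArg Fin.val h
    simp [b, c] at this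
  have ea := one_dir hBNM hBN2 k j (by omega) a
  have eb := one_dir hBNM hBN2 k j (by omega) b
  have ec := one_dir hBNM hBN2 k j (by omega) c
  unfold pp av
  have h2 : (0 : ℝ) < (2 * k : ℝ) ^ j := by positivity
  rw [div_le_iff₀ h2, sum_words]
  set Z : ℝ := 2 * (k : ℝ) ^ 2 * ((j : ℝ) + 1) ^ (-(3 / 2) : ℝ) with hZ
  calc ∑ d : Fin j → Fin k, ∑ ε : Fin j → Bool,
          ind (pos (fun l => (d l, ε l) : Wd k j) j = 0)
        ≤ ∑ d : Fin j → Fin k, (2 ^ j / 3 * (((dn d a : ℝ) + 1) ^ (-(3 / 2) : ℝ) +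
            ((dn d b : ℝ) + 1) ^ (-(3 / 2) : ℝ) + ((dn d c : ℝ) + 1) ^ (-(3 / 2) : ℝ))) :=
          sum_le_sum fun d _ => hTHR k j d a b c hab hac hbc
      _ = 2 ^ j / 3 * (∑ d : Fin j → Fin k, ((dn d a : ℝ) + 1) ^ (-(3 / 2) : ℝ) +
            ∑ d : Fin j → Fin k, ((dn d b : ℝ) + 1) ^ (-(3 / 2) : ℝ) +
            ∑ d : Fin j → Fin k, ((dn d c : ℝ) + 1) ^ (-(3 / 2) : ℝ)) := by
          rw [← mul_sum, sum_add_distrib, sum_add_distrib]
      _ ≤ 2 ^ j / 3 * ((k : ℝ) ^ j * Z + (k : ℝ) ^ j * Z + (k : ℝ) ^ j * Z) :=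
          mul_le_mul_of_nonneg_left (add_le_add (add_le_add ea eb) ec) (by positivity)
      _ = Z * (2 * k : ℝ) ^ j := by
          rw [mul_pow]
          ring

end Pool.Agent.H46.TA
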